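import Mathlib
import Pool.Agent.H21.L.R_seed8.Helper5.Pe.Defs

set_option autoImplicit false

open MeasureTheory Set Filter Topology

namespace Pool.Agent.Helper5.PG

/-- the flat function `n/(2√π) t^{-3/2} e^{-n²/(4t)}` -/
noncomputable def ph (n : ℕ) (t : ℝ) : ℂ :=
  if 0 < t then (((n : ℝ) / (2 * Real.sqrt Real.pi) * t ^ (-(3 / 2) : ℝ) *
    Real.exp (-((n : ℝ) ^ 2 / (4 * t))) : ℝ) : ℂ) else 0

/-- the function `t^{-3/2} e^{-c/t} e^{γt}` -/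
noncomputable def flatf (c : ℝ) (γ : ℂ) (t : ℝ) : ℂ :=
  ((t ^ (-(3 / 2) : ℝ) * Real.exp (-(c / t)) : ℝ) : ℂ) * Complex.exp (γ * t)

end Pool.Agent.Helper5.PG
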